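import Pool.Agent.Y346.PA.Full

set_option autoImplicit false

/-!
# Difference sets with Singer parameters, `3 ∣ m`: almost all orders are prime powers
-/

namespace Pool.Agent.Y343.SG

open Finset Filter Topology
open Pool.Agent.H951R4.OD (ch PI Ex)
open Pool.Agent.W114.PQ
open Pool.Agent.H771R2.SingerDS Pool.Agent.H771R2.Lander

/-- the test for a prime divisor `q` of the order of the group -/
theorem excluded_dvd {n m q p a u j : ℕ} (hm : Odd m) (hm3 : 3 ≤ m) (hn : 2 ≤ n)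
    (h : HasSinger n m) (hq : q.Prime) (hqv' : q ∣ ∑ i ∈ Finset.range m, n ^ i) (hp : p.Prime)
    (hnu : n = p ^ a * u) (hpu : ¬ p ∣ u) (ha : Odd a) (hj : (p : ZMod q) ^ j = -1) : False := by
  obtain ⟨G, hG, hGf, hGd, D, h1, h2, h3⟩ := h
  have : Fact q.Prime := ⟨hq⟩
  have hn1 : 0 < n - 1 := by omega
  have hgeom : ∀ j : ℕ, (∑ i ∈ Finset.range j, n ^ i) * (n - 1) = n ^ j - 1 := by
    intro j
    exact Nat.geomSum_eq (by omega) j ▸ (Nat.div_mul_cancel (by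
      simpa using Nat.sub_dvd_pow_sub_pow n 1 j))
  have hv : Fintype.card G = ∑ i ∈ Finset.range m, n ^ i :=
    Nat.eq_of_mul_eq_mul_right hn1 (h1.trans (hgeom m).symm)
  have hk : D.card = ∑ i ∈ Finset.range (m - 1), n ^ i :=
    Nat.eq_of_mul_eq_mul_right hn1 (h2.trans (hgeom (m - 1)).symm)
  have hlam : ∀ g : G, g ≠ 1 → ((D ×ˢ D).filter (fun p : G × G => p.1 * p.2⁻¹ = g)).card =
      ∑ i ∈ Finset.range (m - 2), n ^ i := fun g hg =>
    Nat.eq_of_mul_eq_mul_right hn1 ((h3 g hg).trans (hgeom (m - 2)).symm)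
  have hodd : Odd (Fintype.card G) := by
    obtain ⟨j, rfl⟩ := hm
    rw [hv]
    exact odd_geom n j
  have hqv : q ∣ Fintype.card G := by rw [hv]; exact hqv'
  have hru : ¬ (p : ℤ) ∣ ((u : ℤ) ^ (m - 2)) := by
    intro h4
    have h5 := (Nat.prime_iff_prime_int.1 hp).dvd_of_dvd_pow h4
    exact hpu (by exact_mod_cast h5)
  refine no_difference_set D _ _ hk hlam hodd hq hqv hp hj (a := a * (m - 2)) ?_ hru ?_
  · refine ha.mul ?_
    obtain ⟨j, rfl⟩ := hm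
    exact ⟨j - 1, by omega⟩
  · have h4 : m - 1 = (m - 2) + 1 := by omega
    rw [h4, Finset.sum_range_succ]
    push_cast
    rw [hnu]
    push_cast
    ring

theorem dvd_geom (n t : ℕ) : n ^ 2 + n + 1 ∣ ∑ i ∈ Finset.range (3 * t), n ^ i := by
  induction t with
  | zero => simp
  | succ t ih =>
    have h : 3 * (t + 1) = 3 * t + 1 + 1 + 1 := by ring
    rw [h, Finset.sum_range_succ, Finset.sum_range_succ, Finset.sum_range_succ]
    have h2 : ∑ i ∈ Finset.range (3 * t), n ^ i + n ^ (3 * t) + n ^ (3 * t + 1) +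
        n ^ (3 * t + 1 + 1) = ∑ i ∈ Finset.range (3 * t), n ^ i +
          (n ^ 2 + n + 1) * n ^ (3 * t) := by ring
    rw [h2]
    exact dvd_add ih (dvd_mul_right _ _)

/-- the tests for `n² + n + 1` -/
theorem test3 {n m : ℕ} (hm : Odd m) (hm3 : 3 ≤ m) (h3 : 3 ∣ m) (hn : 2 ≤ n)
    (h : HasSinger n m) {q p j c : ℕ} (hq : q.Prime) (hqd : q ∣ n ^ 2 + n + 1)
    (hE : Ex c n p) (hj : (p : ZMod q) ^ j = -1) : False := by
  obtain ⟨t, rfl⟩ := h3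
  have hnp := ex_split hE
  exact excluded_dvd hm hm3 hn h hq (hqd.trans (dvd_geom n t)) hE.1 hnp.1 hnp.2 odd_one hj

theorem passQ {n m : ℕ} (hm : Odd m) (hm3 : 3 ≤ m) (h3 : 3 ∣ m) (hn : 2 ≤ n)
    (h : HasSinger n m) : Pass Pool.Agent.Y346.PA.datQ n := by
  refine ⟨?_, ?_⟩
  · intro p q j hE hq hqc hT hj
    exact test3 hm hm3 h3 hn h hq hT.1 hE hj
  · intro h0
    exfalso
    have : Pool.Agent.Y346.PA.datQ.β = 0 := rfl
    rw [this] at h0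
    norm_num at h0

theorem passP {n m : ℕ} (hm : Odd m) (hm3 : 3 ≤ m) (h3 : 3 ∣ m) (hn : 2 ≤ n)
    (h4 : n % 4 = 1 ∨ n % 4 = 2) (h : HasSinger n m) : Pass datP n := by
  refine ⟨?_, ?_⟩
  · intro p q j hE hq hqc hT hj
    exact test3 hm hm3 h3 hn h hq hT.1 hE hj
  · intro _ p hE hp4
    have hp : p.Prime := hE.1
    have hpn : p ∣ n := hE.2.2.1
    have : Fact p.Prime := ⟨hp⟩
    have hV4 : (n ^ 2 + n + 1) % 4 = 3 := by
      rcases h4 with h4 | h4 <;> simp [Nat.add_mod, Nat.pow_mod, h4]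
    have hodd : Odd (n ^ 2 + n + 1) := by
      rw [Nat.odd_iff]; omega
    -- reciprocity
    have h5 : jacobiSym (p : ℤ) (n ^ 2 + n + 1) = -1 := by
      rw [jacobiSym.quadratic_reciprocity_three_mod_four hp4 hV4]
      have h6 : jacobiSym ((n ^ 2 + n + 1 : ℕ) : ℤ) p = 1 := by
        have h7 : ((n ^ 2 + n + 1 : ℕ) : ℤ) % (p : ℤ) = 1 % (p : ℤ) := by
          obtain ⟨c, hc⟩ := hpn
          rw [hc]
          push_cast
          have : ((p : ℤ) * c) ^ 2 + (p : ℤ) * c + 1 = 1 + (p : ℤ) * (p * c ^ 2 + c) := by ring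
          rw [this, Int.add_mul_emod_self_left]
        rw [jacobiSym.mod_left, h7, ← jacobiSym.mod_left, jacobiSym.one_left]
      rw [h6]
    obtain ⟨q, hq, hqV, hJ⟩ := jacobiSym.eq_neg_one_at_prime_divisor_of_eq_neg_one h5
    have : Fact q.Prime := ⟨hq⟩
    rw [← jacobiSym.legendreSym.to_jacobiSym] at hJ
    have h8 : ((p : ℕ) : ZMod q) ^ (q / 2) = -1 := by
      have h9 := legendreSym.eq_pow q (p : ℤ)
      rw [hJ, Int.cast_natCast] at h9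
      rw [← h9]
      push_cast
      rfl
    exact test3 hm hm3 h3 hn h hq hqV hE h8

/-- all residue classes -/
theorem singer3 :
    Tendsto (fun X : ℕ => ({n : ℕ | 2 ≤ n ∧ n ≤ X ∧ ¬ IsPrimePow n ∧
      ∃ m : ℕ, Odd m ∧ 3 ≤ m ∧ 3 ∣ m ∧ HasSinger n m}.ncard : ℝ) * Real.log X / X)
      atTop (𝓝 0) := by
  have h1 : 1 < datP.τ + datP.β / 2 := by
    have h2 : datP.β = 1 := rfl
    have h3 : datP.τ = 1 := rfl
    rw [h2, h3]
    norm_num
  have hP := Pool.Agent.W114.PQ.main datP Pool.Agent.W114.PQ.dp h1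
  have hQ : Tendsto (fun X : ℕ => ({n : ℕ | 1 ≤ n ∧ n ≤ X ∧ Pass Pool.Agent.Y346.PA.datQ n ∧
      (n % 4 = 0 ∨ n % 4 = 3) ∧ ¬ n.Prime}.ncard : ℝ) * Real.log X / X) atTop (𝓝 0) :=
    Pool.Agent.Y346.PA.mainq_full
  have h5 := hP.add hQ
  rw [add_zero] at h5
  refine squeeze_zero (fun X => ?_) (fun X => ?_) h5
  · have := Real.log_natCast_nonneg X
    positivity
  · have h6 := Real.log_natCast_nonneg X
    have h7 : {n : ℕ | 2 ≤ n ∧ n ≤ X ∧ ¬ IsPrimePow n ∧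
          ∃ m : ℕ, Odd m ∧ 3 ≤ m ∧ 3 ∣ m ∧ HasSinger n m} ⊆
        {n : ℕ | 1 ≤ n ∧ n ≤ X ∧ Pass datP n ∧ ¬ n.Prime} ∪
        {n : ℕ | 1 ≤ n ∧ n ≤ X ∧ Pass Pool.Agent.Y346.PA.datQ n ∧
          (n % 4 = 0 ∨ n % 4 = 3) ∧ ¬ n.Prime} := by
      rintro n ⟨hn2, hnX, hnp, m, hm, hm3, h3, hS⟩
      by_cases h4 : n % 4 = 1 ∨ n % 4 = 2
      · exact Or.inl ⟨by omega, hnX, passP hm hm3 h3 hn2 h4 hS, fun hp => hnp hp.isPrimePow⟩
      · exact Or.inr ⟨by omega, hnX, passQ hm hm3 h3 hn2 hS, by omega,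
          fun hp => hnp hp.isPrimePow⟩
    have h8 := (Set.ncard_le_ncard h7 ((finX _ X).union (finX _ X))).trans
      (Set.ncard_union_le _ _)
    have h9 : (({n : ℕ | 2 ≤ n ∧ n ≤ X ∧ ¬ IsPrimePow n ∧
          ∃ m : ℕ, Odd m ∧ 3 ≤ m ∧ 3 ∣ m ∧ HasSinger n m}.ncard : ℕ) : ℝ) ≤
        ({n : ℕ | 1 ≤ n ∧ n ≤ X ∧ Pass datP n ∧ ¬ n.Prime}.ncard : ℝ) +
        ({n : ℕ | 1 ≤ n ∧ n ≤ X ∧ Pass Pool.Agent.Y346.PA.datQ n ∧
          (n % 4 = 0 ∨ n % 4 = 3) ∧ ¬ n.Prime}.ncard : ℝ) := by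
      exact_mod_cast h8
    rw [← add_div, ← add_mul]
    gcongr

end Pool.Agent.Y343.SG
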